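import Pool.Agent.W622.ETG.Lin
import Pool.Agent.W622.ETG.Stm

/-!
# Different maximal cones are disjoint
-/

set_option autoImplicit false
set_option linter.unusedSectionVars false

namespace Pool.Agent.W459.ELG

open Pool.Agent.W622.ETG Module

section
variable {V : Type} [AddCommGroup V] [Module (ZMod 2) V] [Finite V]

theorem finDl : FiniteDimensional (ZMod 2) (Dl V) := by
  infer_instance

theorem one_le_finrank {X : DSub V} {h : Dl V} (h0 : h ≠ 0) (hX : h ∈ X) :
    1 ≤ finrank (ZMod 2) X := by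
  rw [Nat.one_le_iff_ne_zero]
  intro h1
  rw [Submodule.finrank_eq_zero] at h1
  rw [h1] at hX
  exact h0 ((Submodule.mem_bot _).1 hX)

theorem two_le_finrank {p h : Dl V} (hp : p ≠ 0) (h0 : h ≠ 0) (hph : p ≠ h) :
    2 ≤ finrank (ZMod 2) (Submodule.span (ZMod 2) {p, h} : DSub V) := by
  have h1 : (Submodule.span (ZMod 2) {h} : DSub V) < Submodule.span (ZMod 2) {p, h} := by
    refine lt_of_le_of_ne (Submodule.span_mono (by simp)) fun heq => ?_
    have h2 : p ∈ (Submodule.span (ZMod 2) {p, h} : DSub V) := Submodule.subset_span (by simp)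
    rw [← heq, span_one_mem] at h2
    rcases h2 with h2 | h2
    · exact hp h2
    · exact hph h2
  have h2 := Submodule.finrank_lt_finrank_of_lt h1
  have h3 : 1 ≤ finrank (ZMod 2) (Submodule.span (ZMod 2) {h} : DSub V) :=
    one_le_finrank h0 (Submodule.mem_span_singleton_self h)
  omega

theorem three {M : DSub V} (hM : finrank (ZMod 2) M = 3) {p h m : Dl V} (hp : p ∈ M) (hh : h ∈ M)
    (hm : m ∈ M) (hp0 : p ≠ 0) (h0 : h ≠ 0) (hph : p ≠ h)
    (hmn : m ∉ (Submodule.span (ZMod 2) {p, h} : DSub V)) :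
    Submodule.span (ZMod 2) {m, p, h} = M := by
  have h1 : (Submodule.span (ZMod 2) {p, h} : DSub V) < Submodule.span (ZMod 2) {m, p, h} := by
    refine lt_of_le_of_ne (Submodule.span_mono (by simp)) fun heq => hmn ?_
    rw [heq]
    exact Submodule.subset_span (by simp)
  have h2 := Submodule.finrank_lt_finrank_of_lt h1
  have h3 := two_le_finrank hp0 h0 hph
  refine Submodule.eq_of_le_of_finrank_le ?_ (by omega)
  rw [Submodule.span_le]
  intro x hx
  rcases hx with rfl | rfl | rfl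
  · exact hm
  · exact hp
  · exact hh

/-- A third vector with value zero at `e`. -/
theorem third {M : DSub V} (hM : finrank (ZMod 2) M = 3) {e : V} {p h : Dl V} (hh : h ∈ M)
    (he : h e = 1) : ∃ m ∈ M, m ∉ (Submodule.span (ZMod 2) {p, h} : DSub V) ∧ m e = 0 := by
  have h1 : ¬ M ≤ (Submodule.span (ZMod 2) {p, h} : DSub V) := by
    intro h1
    have h2 := Submodule.finrank_mono h1
    have h3 : finrank (ZMod 2) (Submodule.span (ZMod 2) {p, h} : DSub V) ≤ 2 := by
      classical
      have := finrank_span_finset_le_card (R := ZMod 2) ({p, h} : Finset (Dl V))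
      have h4 : ((({p, h} : Finset (Dl V)) : Finset (Dl V)) : Set (Dl V)) = {p, h} := by simp
      rw [Set.finrank, h4] at this
      exact this.trans Finset.card_le_two
    omega
  obtain ⟨m, hm, hmn⟩ := SetLike.not_le_iff_exists.1 h1
  rcases z01 (m e) with h2 | h2
  · exact ⟨m, hm, hmn, h2⟩
  · refine ⟨m + h, M.add_mem hm hh, fun h3 => hmn ?_, ?_⟩
    · have h4 : h ∈ (Submodule.span (ZMod 2) {p, h} : DSub V) := Submodule.subset_span (by simp)
      have h5 := Submodule.add_mem _ h3 h4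
      rwa [add_assoc, vadd, add_zero] at h5
    · rw [LinearMap.add_apply, h2, he]
      exact zadd 1

theorem comp_le {e : V} {A : Fam V} {s : Set (DSub V)}
    (hs : Comps e (res A (ann e)) s) {X : DSub V} (hX : X ∈ s) (hA : EFam e A) :
    X ≤ ann e := by
  rcases hs.2.2 X hX with ⟨ω, hω, rfl⟩ | ⟨q, hq⟩
  · exact (mem_res'.1 hω.1).2
  · intro f hf
    have h1 := hq.2.2.2.2 f hf
    have h2 := ((mem_res_ann hA).1 h1).2
    rw [wd_e hq.2.2.2.1] at h2
    rcases z01 (f e) with h3 | h3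
    · exact h3
    · rw [h3, one_smul] at h2
      exact absurd h2 hq.2.2.1

end

theorem t_MCD (hNF : S_NF) (hSPLIT : S_SPLIT) (hES1 : S_ES1) (hA1 : S_A1) (hMCE : S_MCE)
    (hMCL : S_MCL) : S_MCD := by
  intro V _ _ _ e A M M' hMC hM hM' hne
  by_contra hdis
  obtain ⟨h, hhM, hhM', h0⟩ : ∃ h : Dl V, h ∈ M ∧ h ∈ M' ∧ h ≠ 0 := by
    rw [Submodule.disjoint_def] at hdis
    push Not at hdis
    exact hdis
  obtain ⟨p, hp⟩ := hM.1
  obtain ⟨p', hp'⟩ := hM'.1
  have hEF := hMC.ef
  obtain ⟨htop, hM'3, he, hhp', hsh, hsr⟩ := hMCE V e A M M' p' h hMC hM hM' hp' hne hhM hhM' h0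
  obtain ⟨-, hM3, -, hhp, -, hst⟩ := hMCE V e A M' M p h hMC hM' hM hp hne.symm hhM' hhM h0
  obtain ⟨-, hpM, hp0, hpe, hpw⟩ := hp
  obtain ⟨-, hpM', hp0', hpe', hpw'⟩ := hp'
  -- the intersection
  have hinter : M ⊓ M' = Submodule.span (ZMod 2) {h} := by
    apply le_antisymm
    · intro x hx
      rw [span_one_mem]
      by_cases hx0 : x = 0
      · exact Or.inl hx0
      right
      by_contra hxh
      have h1 : x + h ≠ 0 := fun h2 => hxh (add_eq_zero'.1 h2)
      have h2 : (x + h) ∈ M ⊓ M' := Submodule.add_mem _ hx ⟨hhM, hhM'⟩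
      have hxe := (hMCE V e A M M' p' x hMC hM hM' ⟨by omega, hpM', hp0', hpe', hpw'⟩ hne hx.1 hx.2
        hx0).2.2.1
      have hxhe := (hMCE V e A M M' p' (x + h) hMC hM hM' ⟨by omega, hpM', hp0', hpe', hpw'⟩ hne
        h2.1 h2.2 h1).2.2.1
      rw [LinearMap.add_apply, hxe, he, zadd] at hxhe
      exact zero_ne_one hxhe
    · rw [Submodule.span_singleton_le_iff_mem]
      exact ⟨hhM, hhM'⟩
  have hdim : finrank (ZMod 2) V = 5 := by
    have h1 := Submodule.finrank_sup_add_finrank_inf_eq M M'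
    rw [htop, hinter, finrank_top, finrank_Dl, hM3, hM'3, finrank_span_singleton h0] at h1
    omega
  have he0 : e ≠ 0 := by
    rintro rfl
    rw [map_zero] at he
    exact zero_ne_one he
  obtain ⟨m, hm, hmn, hme⟩ := third (p := p) hM3 hhM he
  obtain ⟨m', hm', hmn', hme'⟩ := third (p := p') hM'3 hhM' he
  have hspan := three hM3 hpM hhM hm hp0 h0 (Ne.symm hhp) hmn
  have hspan' := three hM'3 hpM' hhM' hm' hp0' h0 (Ne.symm hhp') hmn'
  have hm0 : m ≠ 0 := by rintro rfl; exact hmn (Submodule.zero_mem _)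
  have hm0' : m' ≠ 0 := by rintro rfl; exact hmn' (Submodule.zero_mem _)
  have hmp : m ≠ p := by rintro rfl; exact hmn (Submodule.subset_span (by simp))
  have hmp' : m' ≠ p' := by rintro rfl; exact hmn' (Submodule.subset_span (by simp))
  obtain ⟨t, ht⟩ : ∃ t : Dl V, t = p + h := ⟨_, rfl⟩
  obtain ⟨r, hr⟩ : ∃ r : Dl V, r = p' + h := ⟨_, rfl⟩
  have hpt : h + t = p := by rw [ht, add_comm h, add_assoc, vadd, add_zero]
  have hpr : h + r = p' := by rw [hr, add_comm h, add_assoc, vadd, add_zero]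
  have hte : t e = 1 := by rw [ht, LinearMap.add_apply, hpe, he, zero_add]
  have hre : r e = 1 := by rw [hr, LinearMap.add_apply, hpe', he, zero_add]
  have hbig : Submodule.span (ZMod 2) {h, t, m, r, m'} = (⊤ : DSub V) := by
    rw [eq_top_iff, ← htop, ← hspan, ← hspan', sup_le_iff, Submodule.span_le, Submodule.span_le]
    have k1 : h ∈ (Submodule.span (ZMod 2) {h, t, m, r, m'} : DSub V) :=
      Submodule.subset_span (by simp)
    have k2 : t ∈ (Submodule.span (ZMod 2) {h, t, m, r, m'} : DSub V) :=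
      Submodule.subset_span (by simp)
    have k3 : m ∈ (Submodule.span (ZMod 2) {h, t, m, r, m'} : DSub V) :=
      Submodule.subset_span (by simp)
    have k4 : r ∈ (Submodule.span (ZMod 2) {h, t, m, r, m'} : DSub V) :=
      Submodule.subset_span (by simp)
    have k5 : m' ∈ (Submodule.span (ZMod 2) {h, t, m, r, m'} : DSub V) :=
      Submodule.subset_span (by simp)
    constructor
    · intro x hx
      rcases hx with rfl | rfl | rfl
      · exact k3
      · rw [← hpt]; exact Submodule.add_mem _ k1 k2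
      · exact k1
    · intro x hx
      rcases hx with rfl | rfl | rfl
      · exact k5
      · rw [← hpr]; exact Submodule.add_mem _ k1 k4
      · exact k1
  have hrange : Set.range ![h, t, m, r, m'] = {h, t, m, r, m'} := by
    ext x
    simp only [Set.mem_range, Set.mem_insert_iff, Set.mem_singleton_iff]
    constructor
    · rintro ⟨i, rfl⟩
      fin_cases i <;> simp
    · rintro (rfl | rfl | rfl | rfl | rfl)
      · exact ⟨0, rfl⟩
      · exact ⟨1, rfl⟩
      · exact ⟨2, rfl⟩
      · exact ⟨3, rfl⟩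
      · exact ⟨4, rfl⟩
  have hind : LinearIndependent (ZMod 2) ![h, t, m, r, m'] := by
    refine linearIndependent_of_top_le_span_of_card_eq_finrank ?_ ?_
    · rw [hrange, hbig]
    · rw [finrank_Dl, hdim]; rfl
  -- the family of the members which kill `e`
  obtain ⟨hBF, s, hs⟩ := hNF V e (res A (ann e)) (hMC.el _ (ann_ne_top he0))
  have hann : finrank (ZMod 2) (ann e : DSub V) = 4 := by
    have := finrank_ann he0
    omega
  have hP : wd e p m ∈ A := hpw m hm
  have hQ : wd e p' m' ∈ A := hpw' m' hm'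
  have hPB : wd e p m ∈ res A (ann e) := (mem_res_ann hEF).2 ⟨hP, by rw [wd_e hpe, hme, zero_smul]⟩
  have hQB : wd e p' m' ∈ res A (ann e) :=
    (mem_res_ann hEF).2 ⟨hQ, by rw [wd_e hpe', hme', zero_smul]⟩
  have key : ∀ (N : DSub V) (q n : Dl V), q ∈ N → n ∈ N → q ≠ 0 → n ≠ 0 → n ≠ q → q e = 0 →
      n e = 0 → (∀ g ∈ N, wd e q g ∈ A) → ∃ X ∈ s, Submodule.span (ZMod 2) {q, n} ≤ X := by
    intro N q n hq hn hq0 hn0 hnq hqe hne' hw
    have hle : (Submodule.span (ZMod 2) {q, n} : DSub V) ≤ ann e := by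
      rw [Submodule.span_le]
      intro x hx
      rcases hx with rfl | rfl
      · exact hqe
      · exact hne'
    refine hES1 V e (res A (ann e)) s _ q hBF hs hq0 (Submodule.subset_span (by simp)) hqe
      (Or.inr ⟨two_le_finrank hq0 hn0 hnq.symm, hle⟩) fun g hg => ?_
    have h1 : g e = 0 := hle hg
    have h2 : g ∈ N := by
      refine (Submodule.span_le.2 ?_) hg
      intro x hx
      rcases hx with rfl | rfl
      · exact hq
      · exact hn
    exact (mem_res_ann hEF).2 ⟨hw g h2, by rw [wd_e hqe, h1, zero_smul]⟩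
  obtain ⟨X₁, hX₁, hle₁⟩ := key M p m hpM hm hp0 hm0 hmp hpe hme hpw
  obtain ⟨X₂, hX₂, hle₂⟩ := key M' p' m' hpM' hm' hp0' hm0' hmp' hpe' hme' hpw'
  have hX₁e : X₁ ≤ ann e := comp_le hs hX₁ hEF
  have hX₂e : X₂ ≤ ann e := comp_le hs hX₂ hEF
  -- the two planes are disjoint
  have hdisj : Disjoint (Submodule.span (ZMod 2) {p, m} : DSub V)
      (Submodule.span (ZMod 2) {p', m'}) := by
    rw [Submodule.disjoint_def]
    intro x hx hx'
    have h1 : x ∈ M := by
      refine (Submodule.span_le.2 ?_) hx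
      intro y hy
      rcases hy with rfl | rfl
      · exact hpM
      · exact hm
    have h2 : x ∈ M' := by
      refine (Submodule.span_le.2 ?_) hx'
      intro y hy
      rcases hy with rfl | rfl
      · exact hpM'
      · exact hm'
    have h3 : x ∈ M ⊓ M' := ⟨h1, h2⟩
    rw [hinter, span_one_mem] at h3
    rcases h3 with h3 | h3
    · exact h3
    · exfalso
      have h4 : x e = 0 := hX₁e (hle₁ hx)
      rw [h3, he] at h4
      exact one_ne_zero h4
  have hfr₁ : 2 ≤ finrank (ZMod 2) (Submodule.span (ZMod 2) {p, m} : DSub V) :=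
    two_le_finrank hp0 hm0 hmp.symm
  have hfr₂ : 2 ≤ finrank (ZMod 2) (Submodule.span (ZMod 2) {p', m'} : DSub V) :=
    two_le_finrank hp0' hm0' hmp'.symm
  have hsum : finrank (ZMod 2) (Submodule.span (ZMod 2) {p, m} ⊔
      Submodule.span (ZMod 2) {p', m'} : DSub V) =
      finrank (ZMod 2) (Submodule.span (ZMod 2) {p, m} : DSub V) +
      finrank (ZMod 2) (Submodule.span (ZMod 2) {p', m'} : DSub V) := by
    have h1 := Submodule.finrank_sup_add_finrank_inf_eq
      (Submodule.span (ZMod 2) {p, m} : DSub V) (Submodule.span (ZMod 2) {p', m'})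
    rw [disjoint_iff.1 hdisj, finrank_bot, add_zero] at h1
    exact h1
  have hspP : sp (wd e p m) = Submodule.span (ZMod 2) {p, m} := sp_wd hp0 hm0 hmp
  have hspQ : sp (wd e p' m') = Submodule.span (ZMod 2) {p', m'} := sp_wd hp0' hm0' hmp'
  have hP0 : wd e p m ≠ 0 := by
    intro h1
    rw [h1, sp_zero] at hspP
    rw [← hspP, finrank_bot] at hfr₁
    omega
  have hQ0 : wd e p' m' ≠ 0 := by
    intro h1
    rw [h1, sp_zero] at hspQ
    rw [← hspQ, finrank_bot] at hfr₂
    omega
  by_cases hX : X₁ = X₂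
  · -- one component
    subst hX
    have h1 : (Submodule.span (ZMod 2) {p, m} ⊔ Submodule.span (ZMod 2) {p', m'} : DSub V) ≤ X₁ :=
      sup_le hle₁ hle₂
    have h2 := Submodule.finrank_mono h1
    have h3 := Submodule.finrank_mono hX₁e
    rcases hs.2.2 X₁ hX₁ with ⟨ω, hω, hXω⟩ | ⟨q, hq⟩
    · have h4 := hω.2.2 _ hPB (by rw [hspP, ← hXω]; exact hle₁)
      have h5 := hω.2.2 _ hQB (by rw [hspQ, ← hXω]; exact hle₂)
      rcases h4 with h4 | h4
      · exact hP0 h4
      rcases h5 with h5 | h5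
      · exact hQ0 h5
      have h6 : (Submodule.span (ZMod 2) {p, m} : DSub V) = Submodule.span (ZMod 2) {p', m'} := by
        rw [← hspP, ← hspQ, h4, h5]
      rw [h6, disjoint_self] at hdisj
      rw [hdisj, finrank_bot] at hfr₂
      omega
    · have hc : IsCone e A X₁ := ⟨q, hq.1, hq.2.1, hq.2.2.1, hq.2.2.2.1,
        fun g hg => (res_le _ _) (hq.2.2.2.2 g hg)⟩
      have h4 := hA1 V e A X₁ hMC hc
      omega
  · -- two components
    have hd12 : Disjoint X₁ X₂ := hs.1.pairwiseDisjoint hX₁ hX₂ hX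
    have h1 := Submodule.finrank_sup_add_finrank_inf_eq X₁ X₂
    rw [disjoint_iff.1 hd12, finrank_bot, add_zero] at h1
    have h2 : X₁ ⊔ X₂ ≤ ann e := sup_le hX₁e hX₂e
    have h3 := Submodule.finrank_mono h2
    have h4 := Submodule.finrank_mono hle₁
    have h5 := Submodule.finrank_mono hle₂
    have hX₁f : finrank (ZMod 2) X₁ = 2 := by omega
    have hX₂f : finrank (ZMod 2) X₂ = 2 := by omega
    have hsup : X₁ ⊔ X₂ = ann e := Submodule.eq_of_le_of_finrank_le h2 (by omega)
    have loc : ∀ X ∈ s, finrank (ZMod 2) X = 2 → ∀ ζ ∈ res A (ann e), sp ζ ≤ X → ζ ≠ 0 →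
        ∀ η ∈ res A (ann e), sp η ≤ X → η = 0 ∨ η = ζ := by
      intro X hXs hXf ζ hζ hζX hζ0 η hη hηX
      rcases hs.2.2 X hXs with ⟨ω, hω, hXω⟩ | ⟨q, hq⟩
      · rw [hXω] at hζX hηX
        have e1 := (hω.2.2 _ hζ hζX).resolve_left hζ0
        rw [e1]
        exact hω.2.2 _ hη hηX
      · have := hq.1
        omega
    obtain ⟨-, hsd, hsc⟩ := hSPLIT V e (res A (ann e)) s {X₁, X₂} hBF hs (by
      intro x hx
      rcases hx with rfl | rfl
      · exact hX₁
      · exact hX₂)
    have hsupt : sSup ({X₁, X₂} : Set (DSub V)) = ann e := by rw [sSup_pair, hsup]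
    rw [hsupt] at hsc
    have hB : res A (ann e) = res (res (res A (ann e)) (ann e)) X₁ ⊔
        res (res (res A (ann e)) (ann e)) X₂ := by
      have h6 := hsc.2.1
      rw [iSup_pair] at h6
      rw [← h6, res_res, inf_idem]
    refine hMCL V e A h t m r m' hEF hMC.her.linked he hte hre hme hme' hind hbig hsh
      (by rw [ht]; exact hst) (by rw [hr]; exact hsr) (by rw [hpt]; exact hP)
      (by rw [hpr]; exact hQ) ?_
    intro ζ hζ hζe
    rw [hpt, hpr]
    have hζB : ζ ∈ res A (ann e) := (mem_res_ann hEF).2 ⟨hζ, hζe⟩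
    rw [hB] at hζB
    obtain ⟨ζ₁, hζ₁, ζ₂, hζ₂, rfl⟩ := Submodule.mem_sup.1 hζB
    rw [res_res, res_res, ← inf_assoc, inf_idem] at hζ₁ hζ₂
    have g1 : ζ₁ = 0 ∨ ζ₁ = wd e p m := by
      rw [mem_res'] at hζ₁
      exact loc X₁ hX₁ hX₁f _ hPB (by rw [hspP]; exact hle₁) hP0 _
        (mem_res'.2 ⟨hζ₁.1, hζ₁.2.trans inf_le_left⟩) (hζ₁.2.trans inf_le_right)
    have g2 : ζ₂ = 0 ∨ ζ₂ = wd e p' m' := by
      rw [mem_res'] at hζ₂
      exact loc X₂ hX₂ hX₂f _ hQB (by rw [hspQ]; exact hle₂) hQ0 _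
        (mem_res'.2 ⟨hζ₂.1, hζ₂.2.trans inf_le_left⟩) (hζ₂.2.trans inf_le_right)
    rcases g1 with rfl | rfl <;> rcases g2 with rfl | rfl
    · left; rw [add_zero]
    · right; right; left; rw [zero_add]
    · right; left; rw [add_zero]
    · right; right; right; rfl

end Pool.Agent.W459.ELG
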